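import Mathlib

/-!
# Exponential lower bound for the small-subalgebra function of Ananyan and Hochster

For every `d ≥ 2` and every `η` the function `etaBStar η n d` grows at least exponentially in `n`.
The witnesses are the `n` quadrics
`x_0 x_1`, `x_0 x_2` and `∑_{i < m} x_i x_{i+m}` for `m = 3, 6, 12, …, 3 * 2 ^ (n - 3)`
in `3 * 2 ^ (n - 2)` variables.
-/

set_option autoImplicit false

open MvPolynomial

namespace Pool.Agent.Results.MP_c112f0_ag.ExpLower

/-- Serre's condition `(R_η)`: `S` is Noetherian and `S_p` is a regular local ring for every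
prime `p` of height at most `η`. -/
def SerreR (η : ℕ) (S : Type*) [CommRing S] : Prop :=
  IsNoetherianRing S ∧
    ∀ (p : Ideal S) [p.IsPrime], p.height ≤ (η : ℕ∞) →
      IsRegularLocalRing (Localization.AtPrime p)

/-- An `R_η`-sequence in `R = K[x_1, …, x_N]`: a regular sequence `G_1, …, G_s` such that
`R / (G_1, …, G_i)` satisfies `(R_η)` for all `0 ≤ i ≤ s`. -/
def IsREtaSeq (η : ℕ) {K : Type*} [Field K] {N : ℕ}
    (L : List (MvPolynomial (Fin N) K)) : Prop :=
  RingTheory.Sequence.IsRegular (MvPolynomial (Fin N) K) L ∧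
    ∀ i ≤ L.length, SerreR η (MvPolynomial (Fin N) K ⧸ Ideal.ofList (L.take i))

/-- The two conditions in the definition of the small-subalgebra function, for given forms
`F_1, …, F_n` and forms `G_1, …, G_t`, where `G_j` has degree `e_j ≤ d`. -/
structure IsAdmissible (η d : ℕ) {K : Type*} [Field K] {N n t : ℕ}
    (F : Fin n → MvPolynomial (Fin N) K) (G : Fin t → MvPolynomial (Fin N) K)
    (e : Fin t → ℕ) : Prop where
  /-- `G_j` is a form of degree `e_j`. -/
  homog : ∀ j, (G j).IsHomogeneous (e j)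
  /-- The degrees are at most `d`. -/
  deg_le : ∀ j, e j ≤ d
  /-- `G_1, …, G_t` is a regular sequence. -/
  regular : RingTheory.Sequence.IsRegular (MvPolynomial (Fin N) K) (List.ofFn G)
  /-- Every `F_i` lies in `K[G_1, …, G_t]`. -/
  mem_adjoin : ∀ i, F i ∈ Algebra.adjoin K (Set.range G)
  /-- Every sequence of `K`-linearly independent forms, each a `K`-linear combination of those
  `G_j` having one common degree, is an `R_η`-sequence. -/
  rEta : ∀ L : List (MvPolynomial (Fin N) K), LinearIndependent K L.get →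
    (∀ l ∈ L, ∃ δ, l ∈ Submodule.span K {g | ∃ j, e j = δ ∧ G j = g}) → IsREtaSeq η L

/-- The property of the integer `s` in the definition of the function: for every algebraically
closed field `K`, every `N` and all forms `F_1, …, F_n` in `K[x_1, …, x_N]` of positive degree at
most `d` there are admissible forms `G_1, …, G_t` with `t ≤ s`. -/
def Bounds.{u} (η n d s : ℕ) : Prop :=
  ∀ (K : Type u) [Field K] [IsAlgClosed K] (N : ℕ) (F : Fin n → MvPolynomial (Fin N) K),
    (∀ i, ∃ δ, 1 ≤ δ ∧ δ ≤ d ∧ (F i).IsHomogeneous δ) →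
    ∃ (t : ℕ) (G : Fin t → MvPolynomial (Fin N) K) (e : Fin t → ℕ),
      t ≤ s ∧ IsAdmissible η d F G e

/-- The small-subalgebra function: the least `s` with the property `Bounds η n d s`
(as an element of `ℕ∞`, so that no finiteness statement is needed for the definition). -/
noncomputable def etaBStar.{u} (η n d : ℕ) : ℕ∞ :=
  sInf {x : ℕ∞ | ∃ s : ℕ, Bounds.{u} η n d s ∧ x = (s : ℕ∞)}



section general
variable {K : Type*} [Field K] {σ : Type*}

/-- span of members of the family `G` having degree label `δ`. -/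
noncomputable def degSpan {t : ℕ} (G : Fin t → MvPolynomial σ K) (e : Fin t → ℕ) (δ : ℕ) :
    Submodule K (MvPolynomial σ K) :=
  Submodule.span K {g | ∃ j, e j = δ ∧ G j = g}

lemma degSpan_homog {t : ℕ} {G : Fin t → MvPolynomial σ K} {e : Fin t → ℕ}
    (hG : ∀ j, (G j).IsHomogeneous (e j)) (δ : ℕ) :
    degSpan G e δ ≤ homogeneousSubmodule σ K δ := by
  rw [degSpan, Submodule.span_le]
  rintro g ⟨j, rfl, rfl⟩
  exact hG j

lemma closure_aux {t : ℕ} {G : Fin t → MvPolynomial σ K} {e : Fin t → ℕ}
    (hG : ∀ j, (G j).IsHomogeneous (e j)) (m : MvPolynomial σ K)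
    (hm : m ∈ Submonoid.closure (Set.range G)) :
    ∃ δ, m.IsHomogeneous δ ∧ (δ = 0 → ∃ c : K, m = C c) ∧ (δ = 1 → m ∈ degSpan G e 1) ∧
      (δ = 2 → m ∈ degSpan G e 1 * degSpan G e 1 ⊔ degSpan G e 2) := by
  induction hm using Submonoid.closure_induction with
  | mem x hx =>
    obtain ⟨j, rfl⟩ := hx
    refine ⟨e j, hG j, ?_, ?_, ?_⟩
    · intro h
      have h0 := hG j
      rw [h] at h0
      have := (totalDegree_zero_iff_isHomogeneous (σ := σ)).mpr h0
      exact ⟨_, (totalDegree_eq_zero_iff_eq_C).mp this⟩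
    · intro h
      exact Submodule.subset_span ⟨j, h, rfl⟩
    · intro h
      exact Submodule.mem_sup_right (Submodule.subset_span ⟨j, h, rfl⟩)
  | one =>
    refine ⟨0, isHomogeneous_one _ _, fun _ => ⟨1, by simp⟩, by simp, by simp⟩
  | mul x y hx hy ihx ihy =>
    obtain ⟨a, ha, ha0, ha1, ha2⟩ := ihx
    obtain ⟨b, hb, hb0, hb1, hb2⟩ := ihy
    refine ⟨a + b, ha.mul hb, ?_, ?_, ?_⟩
    · intro h
      obtain ⟨c, rfl⟩ := ha0 (by omega)
      obtain ⟨c', rfl⟩ := hb0 (by omega)
      exact ⟨c * c', by simp⟩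
    · intro h
      have : (a = 0 ∧ b = 1) ∨ (a = 1 ∧ b = 0) := by omega
      rcases this with ⟨h1, h2⟩ | ⟨h1, h2⟩
      · obtain ⟨c, rfl⟩ := ha0 h1
        rw [← smul_eq_C_mul]
        exact Submodule.smul_mem _ _ (hb1 h2)
      · obtain ⟨c, rfl⟩ := hb0 h2
        rw [mul_comm x, ← smul_eq_C_mul]
        exact Submodule.smul_mem _ _ (ha1 h1)
    · intro h
      have : (a = 0 ∧ b = 2) ∨ (a = 1 ∧ b = 1) ∨ (a = 2 ∧ b = 0) := by omega
      rcases this with ⟨h1, h2⟩ | ⟨h1, h2⟩ | ⟨h1, h2⟩
      · obtain ⟨c, rfl⟩ := ha0 h1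
        rw [← smul_eq_C_mul]
        exact Submodule.smul_mem _ _ (hb2 h2)
      · exact Submodule.mem_sup_left (Submodule.mul_mem_mul (ha1 h1) (hb1 h2))
      · obtain ⟨c, rfl⟩ := hb0 h2
        rw [mul_comm x, ← smul_eq_C_mul]
        exact Submodule.smul_mem _ _ (ha2 h1)

lemma adjoin_deg_two {t : ℕ} {G : Fin t → MvPolynomial σ K} {e : Fin t → ℕ}
    (hG : ∀ j, (G j).IsHomogeneous (e j)) (F : MvPolynomial σ K)
    (hF : F ∈ Algebra.adjoin K (Set.range G)) (hF2 : F.IsHomogeneous 2) :
    F ∈ degSpan G e 1 * degSpan G e 1 ⊔ degSpan G e 2 := by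
  have key : ∀ F ∈ Submodule.span K (Submonoid.closure (Set.range G) : Set (MvPolynomial σ K)),
      homogeneousComponent 2 F ∈ degSpan G e 1 * degSpan G e 1 ⊔ degSpan G e 2 := by
    intro F hF
    induction hF using Submodule.span_induction with
    | mem x hx =>
      obtain ⟨δ, h, -, -, h2⟩ := closure_aux hG x hx
      by_cases hδ : δ = 2
      · subst hδ
        rw [homogeneousComponent_eq_self h]
        exact h2 rfl
      · rw [homogeneousComponent_of_mem (n := δ) (m := 2) h, if_neg (Ne.symm hδ)]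
        exact Submodule.zero_mem _
    | zero => simp
    | add x y _ _ hx hy => rw [map_add]; exact Submodule.add_mem _ hx hy
    | smul c x _ hx => rw [map_smul]; exact Submodule.smul_mem _ _ hx
  have := key F (by
    have h := Algebra.adjoin_eq_span K (Set.range G)
    have : F ∈ Subalgebra.toSubmodule (Algebra.adjoin K (Set.range G)) := hF
    rwa [h] at this)
  rwa [homogeneousComponent_eq_self hF2] at this

/-- derivative of a product of linear forms -/
lemma pderiv_mem {W : Submodule K (MvPolynomial σ K)} (hW : W ≤ homogeneousSubmodule σ K 1)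
    (i : σ) {F : MvPolynomial σ K} (hF : F ∈ W * W) : pderiv i F ∈ W := by
  have hconst : ∀ w ∈ W, ∃ c : K, pderiv i w = C c := by
    intro w hw
    have h1 : w.IsHomogeneous 1 := hW hw
    have h2 : (pderiv i w).IsHomogeneous (1 - 1) := h1.pderiv
    have := (totalDegree_zero_iff_isHomogeneous (σ := σ)).mpr h2
    exact ⟨_, (totalDegree_eq_zero_iff_eq_C).mp this⟩
  induction hF using Submodule.mul_induction_on' with
  | mem_mul_mem m hm n hn =>
    obtain ⟨c, hc⟩ := hconst m hm
    obtain ⟨c', hc'⟩ := hconst n hn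
    rw [Derivation.leibniz, hc, hc', smul_eq_mul, smul_eq_mul, mul_comm m, mul_comm n,
      ← smul_eq_C_mul, ← smul_eq_C_mul]
    exact Submodule.add_mem _ (Submodule.smul_mem _ _ hm) (Submodule.smul_mem _ _ hn)
  | add x _ y _ hx hy => rw [map_add]; exact Submodule.add_mem _ hx hy

lemma comp_mul_homog (c s : MvPolynomial σ K) {m : ℕ} (hs : s.IsHomogeneous m) (k : ℕ) :
    homogeneousComponent (k + m) (c * s) = homogeneousComponent k c * s := by
  classical
  rw [← sum_homogeneousComponent c, Finset.sum_mul, map_sum, map_sum, Finset.sum_mul]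
  refine Finset.sum_congr rfl fun i _ => ?_
  have h1 : (homogeneousComponent i c * s).IsHomogeneous (i + m) :=
    (homogeneousComponent_isHomogeneous i c).mul hs
  rw [homogeneousComponent_of_mem (n := i + m) (m := k + m) h1,
    homogeneousComponent_of_mem (n := i) (m := k) (homogeneousComponent_isHomogeneous i c)]
  by_cases h : k = i
  · subst h; simp
  · rw [if_neg (by omega), if_neg h, zero_mul]

lemma comp_mul_homog_lt (c s : MvPolynomial σ K) {m : ℕ} (hs : s.IsHomogeneous m) (k : ℕ)
    (hk : k < m) : homogeneousComponent k (c * s) = 0 := by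
  classical
  rw [← sum_homogeneousComponent c, Finset.sum_mul, map_sum]
  refine Finset.sum_eq_zero fun i _ => ?_
  have h1 : (homogeneousComponent i c * s).IsHomogeneous (i + m) :=
    (homogeneousComponent_isHomogeneous i c).mul hs
  rw [homogeneousComponent_of_mem (n := i + m) (m := k) h1, if_neg (by omega)]

/-- the degree one part of an ideal generated by linear forms and quadrics -/
lemma comp_one_mem {S : Set (MvPolynomial σ K)}
    {W : Submodule K (MvPolynomial σ K)}
    (hS : ∀ s ∈ S, s ∈ W ∧ s.IsHomogeneous 1 ∨ s.IsHomogeneous 2)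
    {p : MvPolynomial σ K} (hp : p ∈ Ideal.span S) : homogeneousComponent 1 p ∈ W := by
  rw [Ideal.span, Submodule.mem_span_set] at hp
  obtain ⟨c, hc, rfl⟩ := hp
  rw [Finsupp.sum, map_sum]
  refine Submodule.sum_mem _ fun s hs => ?_
  rcases hS s (hc hs) with ⟨h, h1⟩ | h
  · rw [smul_eq_mul, ← zero_add 1, comp_mul_homog (c s) s h1 0, homogeneousComponent_zero,
      ← smul_eq_C_mul]
    exact Submodule.smul_mem _ _ h
  · rw [smul_eq_mul, comp_mul_homog_lt (c s) s h 1 (by omega)]
    exact Submodule.zero_mem _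

/-- constants do not lie in an ideal generated by linear forms and quadrics -/
lemma one_notMem {S : Set (MvPolynomial σ K)}
    (hS : ∀ s ∈ S, s.IsHomogeneous 1 ∨ s.IsHomogeneous 2) :
    (1 : MvPolynomial σ K) ∉ Ideal.span S := by
  intro hp
  have h0 : homogeneousComponent 0 (1 : MvPolynomial σ K) = 0 := by
    rw [Ideal.span, Submodule.mem_span_set] at hp
    obtain ⟨c, hc, h1⟩ := hp
    rw [← h1, Finsupp.sum, map_sum]
    refine Finset.sum_eq_zero fun s hs => ?_
    rcases hS s (hc hs) with h | h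
    · exact comp_mul_homog_lt (c s) s h 0 (by omega)
    · exact comp_mul_homog_lt (c s) s h 0 (by omega)
  rw [homogeneousComponent_eq_self (isHomogeneous_one _ _)] at h0
  exact one_ne_zero h0

/-- the regularity condition on all sequences of linearly independent homogeneous
linear combinations. -/
def AllRegular {t : ℕ} (G : Fin t → MvPolynomial σ K) (e : Fin t → ℕ) : Prop :=
  ∀ L : List (MvPolynomial σ K), LinearIndependent K L.get →
    (∀ l ∈ L, ∃ δ, l ∈ degSpan G e δ) → RingTheory.Sequence.IsRegular (MvPolynomial σ K) L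

lemma exists_basis_list {t : ℕ} (G : Fin t → MvPolynomial σ K) (e : Fin t → ℕ) :
    ∃ (r : ℕ) (b : Fin r → MvPolynomial σ K), LinearIndependent K b ∧
      Submodule.span K (Set.range b) = degSpan G e 1 := by
  have hfin : Module.Finite K (degSpan G e 1) := by
    apply Module.Finite.span_of_finite
    exact (Set.finite_range G).subset (by rintro g ⟨j, -, rfl⟩; exact ⟨j, rfl⟩)
  let b := Module.finBasis K (degSpan G e 1)
  refine ⟨_, fun i => (b i : MvPolynomial σ K), ?_, ?_⟩
  · exact b.linearIndependent.map' (degSpan G e 1).subtype (Submodule.ker_subtype _)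
  · have h : Set.range (fun i => (b i : MvPolynomial σ K)) =
        (degSpan G e 1).subtype '' Set.range b := by
      rw [← Set.range_comp]; rfl
    rw [h, Submodule.span_image, b.span_eq, Submodule.map_top, Submodule.range_subtype]

lemma ideal_span_eq {W : Submodule K (MvPolynomial σ K)} {r : ℕ}
    {b : Fin r → MvPolynomial σ K} (hb : Submodule.span K (Set.range b) = W) :
    Ideal.ofList (List.ofFn b) = Ideal.span (W : Set (MvPolynomial σ K)) := by
  apply le_antisymm
  · rw [Ideal.ofList, Ideal.span_le]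
    intro x hx
    have hx' : x ∈ List.ofFn b := hx
    rw [List.mem_ofFn] at hx'
    apply Ideal.subset_span
    rw [← hb]
    exact Submodule.subset_span hx'
  · rw [Ideal.span_le]
    intro x hx
    have hx' : x ∈ Submodule.span K (Set.range b) := by rw [hb]; exact hx
    have : Submodule.span K (Set.range b) ≤
        (Ideal.ofList (List.ofFn b)).restrictScalars K := by
      rw [Submodule.span_le]
      rintro y ⟨i, rfl⟩
      apply Ideal.subset_span
      show b i ∈ List.ofFn b
      rw [List.mem_ofFn]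
      exact ⟨i, rfl⟩
    exact this hx'

lemma lin_indep_append {t : ℕ} {G : Fin t → MvPolynomial σ K} {e : Fin t → ℕ}
    (hG : ∀ j, (G j).IsHomogeneous (e j)) {r : ℕ}
    {b : Fin r → MvPolynomial σ K} (hbi : LinearIndependent K b)
    (hb : Submodule.span K (Set.range b) = degSpan G e 1) {m : ℕ}
    {u : Fin m → MvPolynomial σ K} (hu : LinearIndependent K u)
    (hu2 : ∀ i, u i ∈ degSpan G e 2) :
    LinearIndependent K (List.ofFn b ++ List.ofFn u).get := by
  have hdisj : Disjoint (Submodule.span K (Set.range b)) (Submodule.span K (Set.range u)) := by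
    rw [Submodule.disjoint_def]
    intro x hx hx'
    have h1 : x.IsHomogeneous 1 := by
      rw [hb] at hx
      exact degSpan_homog hG 1 hx
    have h2 : x.IsHomogeneous 2 := by
      have : Submodule.span K (Set.range u) ≤ degSpan G e 2 := by
        rw [Submodule.span_le]; rintro y ⟨i, rfl⟩; exact hu2 i
      exact degSpan_homog hG 2 (this hx')
    by_contra hne
    exact absurd (h1.inj_right h2 hne) (by norm_num)
  have h := hbi.sum_type hu hdisj
  have h3 : Sum.elim b u = Fin.append b u ∘ finSumFinEquiv := by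
    funext x
    rcases x with x | x <;> simp
  rw [h3] at h
  have h4 : LinearIndependent K (Fin.append b u) :=
    (linearIndependent_equiv finSumFinEquiv).mp h
  have h5 : List.ofFn b ++ List.ofFn u = List.ofFn (Fin.append b u) :=
    (List.ofFn_fin_append b u).symm
  rw [h5]
  have h6 : (List.ofFn (Fin.append b u)).get =
      Fin.append b u ∘ (finCongr (List.length_ofFn (f := Fin.append b u))) := by
    funext i
    rw [List.get_eq_getElem, List.getElem_ofFn]
    rfl
  rw [h6]
  exact (linearIndependent_equiv _).mpr h4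

lemma eq_zero_of_mem {t : ℕ} {G : Fin t → MvPolynomial σ K} {e : Fin t → ℕ}
    (hG : ∀ j, (G j).IsHomogeneous (e j)) (hreg : AllRegular G e)
    {u : MvPolynomial σ K} (hu : u ∈ degSpan G e 2)
    (hu' : u ∈ Ideal.span (degSpan G e 1 : Set (MvPolynomial σ K))) : u = 0 := by
  by_contra hne
  obtain ⟨r, b, hbi, hb⟩ := exists_basis_list G e
  have hli := lin_indep_append hG hbi hb (u := fun _ : Fin 1 => u) (m := 1)
    (LinearIndependent.of_subsingleton 0 hne) (fun _ => hu)
  have hL := hreg _ hli (by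
    intro l hl
    rw [List.mem_append, List.mem_ofFn, List.mem_ofFn] at hl
    rcases hl with ⟨i, rfl⟩ | ⟨i, rfl⟩
    · refine ⟨1, ?_⟩
      rw [← hb]
      exact Submodule.subset_span ⟨i, rfl⟩
    · exact ⟨2, hu⟩)
  have hw := ((RingTheory.Sequence.isWeaklyRegular_append_iff _ _ _).mp hL.toIsWeaklyRegular).2
  have h1 : List.ofFn (fun _ : Fin 1 => u) = [u] := by simp
  rw [h1, RingTheory.Sequence.isWeaklyRegular_singleton_iff] at hw
  have h2 := (isSMulRegular_quotient_iff_mem_of_smul_mem _ _).mp hw 1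
  rw [smul_eq_mul, smul_eq_mul, Ideal.mul_top, mul_one, ideal_span_eq hb] at h2
  refine one_notMem ?_ (h2 hu')
  intro s hs
  exact Or.inl (degSpan_homog hG 1 hs)

lemma mem_of_mul_mem {t : ℕ} {G : Fin t → MvPolynomial σ K} {e : Fin t → ℕ}
    (hG : ∀ j, (G j).IsHomogeneous (e j)) (hreg : AllRegular G e)
    {u v : MvPolynomial σ K} (hu : u ∈ degSpan G e 2) (hv : v ∈ degSpan G e 2)
    (huv : LinearIndependent K ![u, v]) {p : MvPolynomial σ K}
    (hp : v * p ∈ Ideal.span ((degSpan G e 1 : Set (MvPolynomial σ K)) ∪ {u})) :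
    p ∈ Ideal.span ((degSpan G e 1 : Set (MvPolynomial σ K)) ∪ {u}) := by
  obtain ⟨r, b, hbi, hb⟩ := exists_basis_list G e
  have hli := lin_indep_append hG hbi hb huv (by
    intro i; fin_cases i
    · exact hu
    · exact hv)
  have hL := hreg _ hli (by
    intro l hl
    rw [List.mem_append, List.mem_ofFn, List.mem_ofFn] at hl
    rcases hl with ⟨i, rfl⟩ | ⟨i, rfl⟩
    · refine ⟨1, ?_⟩
      rw [← hb]
      exact Submodule.subset_span ⟨i, rfl⟩
    · fin_cases i
      · exact ⟨2, hu⟩
      · exact ⟨2, hv⟩)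
  have h0 : List.ofFn b ++ List.ofFn ![u, v] = (List.ofFn b ++ [u]) ++ [v] := by simp
  rw [h0] at hL
  have hw := ((RingTheory.Sequence.isWeaklyRegular_append_iff _ _ _).mp hL.toIsWeaklyRegular).2
  rw [RingTheory.Sequence.isWeaklyRegular_singleton_iff] at hw
  have h2 := (isSMulRegular_quotient_iff_mem_of_smul_mem _ _).mp hw p
  rw [smul_eq_mul, smul_eq_mul, Ideal.mul_top, Ideal.ofList_append, ideal_span_eq hb,
    Ideal.ofList_singleton, ← Ideal.span_union] at h2
  exact h2 hp

end general


section example_family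

variable (K : Type*) [Field K]

/-- `x_i` for `i < M`, and `0` otherwise. -/
noncomputable def xv (M : ℕ) (i : ℕ) : MvPolynomial (Fin M) K :=
  if h : i < M then X ⟨i, h⟩ else 0

lemma xv_homog (M i : ℕ) : (xv K M i).IsHomogeneous 1 := by
  unfold xv
  split_ifs with h
  · exact isHomogeneous_X _ _
  · exact isHomogeneous_zero _ _ _

lemma pderiv_xv (M i j : ℕ) (hj : j < M) :
    pderiv (⟨j, hj⟩ : Fin M) (xv K M i) = if i = j then 1 else 0 := by
  unfold xv
  split_ifs with h h1 h1
  · subst h1; simp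
  · rw [pderiv_X_of_ne]; intro h2; exact h1 (by simpa using congrArg Fin.val h2)
  · omega
  · simp

/-- the quadric `∑_{i<m} x_i x_{i+m}` -/
noncomputable def qd (M m : ℕ) : MvPolynomial (Fin M) K :=
  ∑ i ∈ Finset.range m, xv K M i * xv K M (i + m)

lemma qd_homog (M m : ℕ) : (qd K M m).IsHomogeneous 2 :=
  IsHomogeneous.sum _ _ _ fun i _ => (xv_homog K M i).mul (xv_homog K M (i + m))

lemma pderiv_qd (M m j : ℕ) (hj : j < m) (hm : m ≤ M) :
    pderiv (⟨j, by omega⟩ : Fin M) (qd K M m) = xv K M (j + m) := by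
  unfold qd
  rw [map_sum, Finset.sum_eq_single j]
  · rw [Derivation.leibniz, pderiv_xv, pderiv_xv, if_pos rfl, if_neg (by omega)]
    simp
  · intro i hi hij
    rw [Finset.mem_range] at hi
    rw [Derivation.leibniz, pderiv_xv, pderiv_xv, if_neg hij, if_neg (by omega)]
    simp
  · intro h; exact absurd (Finset.mem_range.mpr hj) h

/-- The family of quadrics `x_0 x_1, x_0 x_2, ∑_{i<3·2^{k-2}} x_i x_{i+3·2^{k-2}} (k ≥ 2)`. -/
noncomputable def fam (M : ℕ) (k : ℕ) : MvPolynomial (Fin M) K :=
  if k = 0 then xv K M 0 * xv K M 1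
  else if k = 1 then xv K M 0 * xv K M 2
  else qd K M (3 * 2 ^ (k - 2))

lemma fam_homog (M : ℕ) (k : ℕ) : (fam K M k).IsHomogeneous 2 := by
  unfold fam
  split_ifs
  · exact (xv_homog _ _ _).mul (xv_homog _ _ _)
  · exact (xv_homog _ _ _).mul (xv_homog _ _ _)
  · exact qd_homog _ _ _

theorem lower (n : ℕ) (M : ℕ) (hM : M = 3 * 2 ^ n) (t : ℕ)
    (G : Fin t → MvPolynomial (Fin M) K) (e : Fin t → ℕ)
    (hG : ∀ j, (G j).IsHomogeneous (e j))
    (hF : ∀ k < n + 2, fam K M k ∈ Algebra.adjoin K (Set.range G)) (hreg : AllRegular G e) :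
    M ≤ t := by
  classical
  have hM3 : 3 ≤ M := by
    have : 1 ≤ 2 ^ n := Nat.one_le_two_pow
    omega
  set W := degSpan G e 1 with hW
  have hW1 : W ≤ homogeneousSubmodule _ K 1 := degSpan_homog hG 1
  have hdec : ∀ F : MvPolynomial (Fin M) K, F ∈ Algebra.adjoin K (Set.range G) →
      F.IsHomogeneous 2 → ∃ q ∈ W * W, ∃ u ∈ degSpan G e 2, q + u = F := by
    intro F h1 h2
    exact Submodule.mem_sup.mp (adjoin_deg_two hG F h1 h2)
  have hWW : ∀ q ∈ W * W, q ∈ Ideal.span (W : Set (MvPolynomial (Fin M) K)) := by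
    intro q hq
    induction hq using Submodule.mul_induction_on' with
    | mem_mul_mem m hm n hn => exact Ideal.mul_mem_left _ _ (Ideal.subset_span hn)
    | add x _ y _ hx hy => exact Ideal.add_mem _ hx hy
  -- if a quadric of the algebra lies in the ideal of `W` then it lies in `W * W`
  have hin : ∀ F : MvPolynomial (Fin M) K, F ∈ Algebra.adjoin K (Set.range G) →
      F.IsHomogeneous 2 → F ∈ Ideal.span (W : Set (MvPolynomial (Fin M) K)) → F ∈ W * W := by
    intro F h1 h2 h3
    obtain ⟨q, hq, u, hu, rfl⟩ := hdec F h1 h2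
    have : u = 0 := by
      apply eq_zero_of_mem hG hreg hu
      have := Ideal.sub_mem _ h3 (hWW q hq)
      rwa [add_sub_cancel_left] at this
    rw [this, add_zero]
    exact hq
  have hF0 : xv K M 0 * xv K M 1 ∈ Algebra.adjoin K (Set.range G) := by
    have := hF 0 (by omega)
    simpa [fam] using this
  have hF1 : xv K M 0 * xv K M 2 ∈ Algebra.adjoin K (Set.range G) := by
    have := hF 1 (by omega)
    simpa [fam] using this
  have hq01 : (xv K M 0 * xv K M 1).IsHomogeneous 2 := (xv_homog _ _ _).mul (xv_homog _ _ _)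
  have hq02 : (xv K M 0 * xv K M 2).IsHomogeneous 2 := (xv_homog _ _ _).mul (xv_homog _ _ _)
  have hx0 : xv K M 0 ∈ W := by
    obtain ⟨q1, hq1, u1, hu1, h1⟩ := hdec _ hF0 hq01
    obtain ⟨q2, hq2, u2, hu2, h2⟩ := hdec _ hF1 hq02
    by_cases hli : LinearIndependent K ![u1, u2]
    · -- then `x_1 ∈ W`
      have h3 : u2 * xv K M 1 ∈
          Ideal.span ((W : Set (MvPolynomial (Fin M) K)) ∪ {u1}) := by
        have h4 : u2 * xv K M 1 = xv K M 2 * (q1 + u1) - xv K M 1 * q2 := by
          rw [h1]
          have : u2 = xv K M 0 * xv K M 2 - q2 := by rw [← h2]; ring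
          rw [this]; ring
        rw [h4]
        have hle : Ideal.span (W : Set (MvPolynomial (Fin M) K)) ≤
            Ideal.span ((W : Set (MvPolynomial (Fin M) K)) ∪ {u1}) :=
          Ideal.span_mono Set.subset_union_left
        refine Ideal.sub_mem _ (Ideal.mul_mem_left _ _ (Ideal.add_mem _ (hle (hWW _ hq1)) ?_))
          (Ideal.mul_mem_left _ _ (hle (hWW _ hq2)))
        exact Ideal.subset_span (Or.inr rfl)
      have h5 := mem_of_mul_mem hG hreg hu1 hu2 hli h3
      have h6 : homogeneousComponent 1 (xv K M 1) ∈ W := by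
        refine comp_one_mem (S := ((W : Set (MvPolynomial (Fin M) K)) ∪ {u1})) ?_ h5
        rintro s (hs | hs)
        · exact Or.inl ⟨hs, hW1 hs⟩
        · rw [Set.mem_singleton_iff] at hs
          subst hs
          exact Or.inr (degSpan_homog hG 2 hu1)
      rw [homogeneousComponent_eq_self (xv_homog _ _ _)] at h6
      exfalso
      have h7 : u1 = 0 := by
        apply eq_zero_of_mem hG hreg hu1
        have h8 : u1 = xv K M 0 * xv K M 1 - q1 := by rw [← h1]; ring
        rw [h8]
        exact Ideal.sub_mem _ (Ideal.mul_mem_left _ _ (Ideal.subset_span h6)) (hWW _ hq1)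
      have := hli.ne_zero 0
      simp [h7] at this
    · -- some combination of `u1, u2` vanishes
      rw [LinearIndependent.pair_iff] at hli
      push Not at hli
      obtain ⟨c1, c2, hc, hne⟩ := hli
      have h3 : c1 • (xv K M 0 * xv K M 1) + c2 • (xv K M 0 * xv K M 2) ∈ W * W := by
        have : c1 • (xv K M 0 * xv K M 1) + c2 • (xv K M 0 * xv K M 2) = c1 • q1 + c2 • q2 := by
          rw [← h1, ← h2, smul_add, smul_add]
          have : c1 • q1 + c1 • u1 + (c2 • q2 + c2 • u2) =
            c1 • q1 + c2 • q2 + (c1 • u1 + c2 • u2) := by abel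
          rw [this, hc, add_zero]
        rw [this]
        exact Submodule.add_mem _ (Submodule.smul_mem _ _ hq1) (Submodule.smul_mem _ _ hq2)
      by_cases hc1 : c1 = 0
      · have hc2 : c2 ≠ 0 := hne hc1
        have h4 := pderiv_mem hW1 (⟨2, by omega⟩ : Fin M) h3
        rw [map_add, Derivation.map_smul, Derivation.map_smul, Derivation.leibniz,
          Derivation.leibniz, pderiv_xv, pderiv_xv, pderiv_xv] at h4
        simp only [hc1, zero_smul, zero_add, if_true, smul_eq_mul, mul_one,
          OfNat.zero_ne_ofNat, if_false, mul_zero, add_zero] at h4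
        have := Submodule.smul_mem W c2⁻¹ h4
        rwa [smul_smul, inv_mul_cancel₀ hc2, one_smul] at this
      · have h4 := pderiv_mem hW1 (⟨1, by omega⟩ : Fin M) h3
        rw [map_add, Derivation.map_smul, Derivation.map_smul, Derivation.leibniz,
          Derivation.leibniz, pderiv_xv, pderiv_xv, pderiv_xv] at h4
        simp only [if_true, smul_eq_mul, mul_one, zero_ne_one, if_false, mul_zero, add_zero,
          OfNat.ofNat_ne_one, smul_zero] at h4
        have := Submodule.smul_mem W c1⁻¹ h4
        rwa [smul_smul, inv_mul_cancel₀ hc1, one_smul] at this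
  have hmain : ∀ k, k ≤ n → ∀ i < 3 * 2 ^ k, xv K M i ∈ W := by
    intro k
    induction k with
    | zero =>
      intro _ i hi
      have hx1 : xv K M 1 ∈ W := by
        have h1 := hin _ hF0 hq01 (Ideal.mul_mem_right _ _ (Ideal.subset_span hx0))
        have h2 := pderiv_mem hW1 (⟨0, by omega⟩ : Fin M) h1
        rw [Derivation.leibniz, pderiv_xv, pderiv_xv] at h2
        simpa using h2
      have hx2 : xv K M 2 ∈ W := by
        have h1 := hin _ hF1 hq02 (Ideal.mul_mem_right _ _ (Ideal.subset_span hx0))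
        have h2 := pderiv_mem hW1 (⟨0, by omega⟩ : Fin M) h1
        rw [Derivation.leibniz, pderiv_xv, pderiv_xv] at h2
        simpa using h2
      have : i = 0 ∨ i = 1 ∨ i = 2 := by simp at hi; omega
      rcases this with rfl | rfl | rfl
      · exact hx0
      · exact hx1
      · exact hx2
    | succ k ih =>
      intro hk i hi
      have ih' := ih (by omega)
      by_cases hik : i < 3 * 2 ^ k
      · exact ih' i hik
      · have hle : 3 * 2 ^ (k + 1) ≤ M := by
          rw [hM]
          exact Nat.mul_le_mul_left _ (Nat.pow_le_pow_right (by norm_num) hk)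
        have hpow : 3 * 2 ^ (k + 1) = 3 * 2 ^ k + 3 * 2 ^ k := by rw [pow_succ]; ring
        have hq : qd K M (3 * 2 ^ k) ∈ Algebra.adjoin K (Set.range G) := by
          have := hF (k + 2) (by omega)
          simpa [fam] using this
        have h1 := hin _ hq (qd_homog _ _ _) (by
          unfold qd
          refine Ideal.sum_mem _ fun j hj => ?_
          rw [Finset.mem_range] at hj
          exact Ideal.mul_mem_right _ _ (Ideal.subset_span (ih' j hj)))
        obtain ⟨j, rfl⟩ : ∃ j, i = j + 3 * 2 ^ k := ⟨i - 3 * 2 ^ k, by omega⟩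
        have h2 := pderiv_mem hW1 (⟨j, by omega⟩ : Fin M) h1
        rwa [pderiv_qd K M _ j (by omega) (by omega)] at h2
  -- conclusion: `W` contains all the variables
  have hX : ∀ i : Fin M, (X i : MvPolynomial (Fin M) K) ∈ W := by
    intro i
    have := hmain n le_rfl i (hM ▸ i.2)
    simpa [xv] using this
  have hliX : LinearIndependent K (fun i : Fin M => (X i : MvPolynomial (Fin M) K)) :=
    linearIndependent_X _ _
  have hcard : M ≤ Module.finrank K (Submodule.span K (Set.range G)) := by
    have h1 : Module.finrank K (Submodule.span K (Set.range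
      (fun i : Fin M => (X i : MvPolynomial (Fin M) K)))) = Fintype.card (Fin M) :=
      finrank_span_eq_card hliX
    rw [Fintype.card_fin] at h1
    refine h1.symm.le.trans ?_
    have : Module.Finite K (Submodule.span K (Set.range G)) :=
      Module.Finite.span_of_finite K (Set.finite_range G)
    apply Submodule.finrank_mono
    rw [Submodule.span_le]
    rintro x ⟨i, rfl⟩
    refine (?_ : W ≤ _) (hX i)
    rw [hW, degSpan]
    apply Submodule.span_mono
    rintro g ⟨j, -, rfl⟩
    exact ⟨j, rfl⟩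
  refine hcard.trans ((finrank_range_le_card G).trans ?_)
  rw [Fintype.card_fin]

end example_family


section quot

variable {K : Type*} [Field K] {N : ℕ}

/-- linear form attached to a vector -/
noncomputable def lf (v : Fin N → K) : MvPolynomial (Fin N) K := ∑ i, C (v i) * X i

lemma lf_eq (v : Fin N → K) : lf v = ∑ i, v i • (X i : MvPolynomial (Fin N) K) := by
  simp [lf, smul_eq_C_mul]

/-- linear map version -/
noncomputable def lfL : (Fin N → K) →ₗ[K] MvPolynomial (Fin N) K :=
  Fintype.linearCombination K (fun i => (X i : MvPolynomial (Fin N) K))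

lemma lfL_inj : Function.Injective (lfL (K := K) (N := N)) := by
  have h : LinearIndependent K (fun i : Fin N => (X i : MvPolynomial (Fin N) K)) :=
    linearIndependent_X _ _
  exact linearIndependent_iff_injective_fintypeLinearCombination.mp h

lemma lfL_range : LinearMap.range (lfL (K := K) (N := N)) = homogeneousSubmodule (Fin N) K 1 := by
  rw [homogeneousSubmodule_one_eq_span_X]
  exact Fintype.range_linearCombination K _

lemma lfL_single (i : Fin N) : lfL (Pi.single i (1 : K)) = X i := by
  simp [lfL, Fintype.linearCombination_apply, Pi.single_apply, ite_smul]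

/-- The quotient of the polynomial ring by an ideal generated by linear forms is a polynomial
ring. -/
theorem exists_equiv (W : Submodule K (Fin N → K)) :
    ∃ m : ℕ, Nonempty ((MvPolynomial (Fin N) K ⧸ Ideal.span (lfL '' (W : Set (Fin N → K)))) ≃+*
      MvPolynomial (Fin m) K) := by
  obtain ⟨W', hW'⟩ := Submodule.exists_isCompl W
  let b := Module.finBasis K W'
  set m := Module.finrank K W'
  let pr : (Fin N → K) →ₗ[K] W' := W'.projectionOnto W hW'.symm
  let L' : W' →ₗ[K] MvPolynomial (Fin m) K :=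
    b.constr K (fun j => (X j : MvPolynomial (Fin m) K))
  let π : MvPolynomial (Fin N) K →ₐ[K] MvPolynomial (Fin m) K :=
    aeval (fun i => L' (pr (Pi.single i 1)))
  let s : MvPolynomial (Fin m) K →ₐ[K] MvPolynomial (Fin N) K :=
    aeval (fun j => lfL ((b j : W') : Fin N → K))
  have hπ : ∀ v : Fin N → K, π (lfL v) = L' (pr v) := by
    intro v
    have : π.toLinearMap ∘ₗ lfL = L' ∘ₗ pr := by
      apply LinearMap.pi_ext'
      intro i
      ext
      simp only [LinearMap.comp_apply, LinearMap.coe_single, AlgHom.toLinearMap_apply, lfL_single]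
      simp [π]
    exact LinearMap.congr_fun this v
  have hπs : ∀ q, π (s q) = q := by
    intro q
    have : π.comp s = AlgHom.id K _ := by
      apply MvPolynomial.algHom_ext
      intro j
      simp only [AlgHom.comp_apply, s, aeval_X, AlgHom.id_apply]
      rw [hπ]
      have : pr (b j : Fin N → K) = b j := Submodule.projectionOnto_apply_left hW'.symm (b j)
      rw [this]
      simp [L']
    exact AlgHom.congr_fun this q
  have hs : ∀ w : W', s (L' w) = lfL (w : Fin N → K) := by
    intro w
    have : s.toLinearMap ∘ₗ L' = lfL ∘ₗ W'.subtype := by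
      apply b.ext
      intro j
      simp [L', s]
    exact LinearMap.congr_fun this w
  set I := Ideal.span (lfL '' (W : Set (Fin N → K))) with hI
  have hker : RingHom.ker (π : MvPolynomial (Fin N) K →+* MvPolynomial (Fin m) K) = I := by
    apply le_antisymm
    · intro p hp
      rw [RingHom.mem_ker] at hp
      have key : (Ideal.Quotient.mkₐ K I) = (Ideal.Quotient.mkₐ K I).comp (s.comp π) := by
        apply MvPolynomial.algHom_ext
        intro i
        simp only [AlgHom.comp_apply, Ideal.Quotient.mkₐ_eq_mk]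
        rw [Ideal.Quotient.mk_eq_mk_iff_sub_mem]
        rw [← lfL_single i, hπ, hs, ← map_sub]
        apply Ideal.subset_span
        refine ⟨_, ?_, rfl⟩
        show Pi.single i 1 - (pr (Pi.single i 1) : Fin N → K) ∈ W
        have h1 := Submodule.projectionOnto_apply_eq_zero_iff hW'.symm
          (x := Pi.single i 1 - (pr (Pi.single i 1) : Fin N → K))
        rw [← h1, map_sub, sub_eq_zero]
        exact (Submodule.projectionOnto_apply_left hW'.symm _).symm
      have h2 := AlgHom.congr_fun key p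
      simp only [AlgHom.comp_apply] at h2
      have hp' : π p = 0 := hp
      rw [hp', map_zero, map_zero] at h2
      exact Ideal.Quotient.eq_zero_iff_mem.mp h2
    · rw [hI, Ideal.span_le]
      rintro _ ⟨w, hw, rfl⟩
      show π (lfL w) = 0
      rw [hπ]
      have : pr w = 0 := (Submodule.projectionOnto_apply_eq_zero_iff hW'.symm).mpr hw
      rw [this, map_zero]
  have hsurj : Function.Surjective (π : MvPolynomial (Fin N) K →+* MvPolynomial (Fin m) K) :=
    fun q => ⟨s q, hπs q⟩
  refine ⟨m, ⟨?_⟩⟩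
  rw [← hker]
  exact RingHom.quotientKerEquivOfSurjective hsurj


/-- The quotient by linear forms is a regular domain. -/
lemma quot_list (L : List (MvPolynomial (Fin N) K)) (hL : ∀ l ∈ L, l.IsHomogeneous 1) :
    ∃ m : ℕ, Nonempty ((MvPolynomial (Fin N) K ⧸ Ideal.ofList L) ≃+* MvPolynomial (Fin m) K) := by
  obtain ⟨m, hm⟩ := exists_equiv (K := K) (N := N)
    (Submodule.span K (lfL ⁻¹' {l | l ∈ L}))
  refine ⟨m, ?_⟩
  have h : Ideal.ofList L = Ideal.span (lfL '' ((Submodule.span K (lfL ⁻¹' {l | l ∈ L}) :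
      Submodule K (Fin N → K)) : Set (Fin N → K))) := by
    apply le_antisymm
    · rw [Ideal.ofList, Ideal.span_le]
      intro l hl
      have h1 : l ∈ LinearMap.range (lfL (K := K) (N := N)) := by
        rw [lfL_range]; exact hL l hl
      obtain ⟨v, rfl⟩ := h1
      exact Ideal.subset_span ⟨v, Submodule.subset_span hl, rfl⟩
    · rw [Ideal.span_le]
      rintro _ ⟨v, hv, rfl⟩
      have hv' : v ∈ Submodule.span K (lfL ⁻¹' {l | l ∈ L}) := hv
      show lfL v ∈ Ideal.ofList L
      induction hv' using Submodule.span_induction with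
      | mem x hx => exact Ideal.subset_span hx
      | zero => simp
      | add x y _ _ hx hy =>
        rw [map_add]; exact Ideal.add_mem _ (hx ‹_›) (hy ‹_›)
      | smul c x _ hx =>
        rw [map_smul, smul_eq_C_mul]; exact Ideal.mul_mem_left _ _ (hx ‹_›)
  rw [h]
  exact hm

lemma isREtaSeq_linear (η : ℕ) (L : List (MvPolynomial (Fin N) K))
    (hL : ∀ l ∈ L, l.IsHomogeneous 1) (hli : LinearIndependent K L.get) : IsREtaSeq η L := by
  have htake : ∀ i, ∀ l ∈ L.take i, l.IsHomogeneous 1 :=
    fun i l hl => hL l (List.mem_of_mem_take hl)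
  refine ⟨⟨⟨?_⟩, ?_⟩, ?_⟩
  · intro i hi
    rw [isSMulRegular_quotient_iff_mem_of_smul_mem]
    intro x hx
    rw [smul_eq_mul, Ideal.mul_top] at hx ⊢
    rw [smul_eq_mul] at hx
    obtain ⟨m, ⟨φ⟩⟩ := quot_list (L.take i) (htake i)
    have hdom : IsDomain (MvPolynomial (Fin N) K ⧸ Ideal.ofList (L.take i)) :=
      MulEquiv.isDomain _ φ.toMulEquiv
    have hprime : (Ideal.ofList (L.take i)).IsPrime := (Ideal.Quotient.isDomain_iff_prime _).mp hdom
    rcases hprime.mem_or_mem hx with h | h
    · exfalso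
      have h1 : homogeneousComponent 1 L[i] ∈
          Submodule.span K {l | l ∈ L.take i} := by
        refine comp_one_mem (S := {l | l ∈ L.take i}) ?_ h
        intro s hs
        exact Or.inl ⟨Submodule.subset_span hs, htake i s hs⟩
      rw [homogeneousComponent_eq_self (hL _ (List.getElem_mem hi))] at h1
      have h2 := hli.notMem_span_image (s := {j | (j : ℕ) < i}) (x := ⟨i, hi⟩) (by simp)
      apply h2
      refine Submodule.span_mono ?_ h1
      intro l hl
      obtain ⟨j, hj, rfl⟩ := List.mem_take_iff_getElem.mp hl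
      exact ⟨⟨j, by omega⟩, by simp; omega, rfl⟩
    · exact h
  · intro h
    rw [smul_eq_mul, Ideal.mul_top] at h
    have h1 : (1 : MvPolynomial (Fin N) K) ∈ Ideal.ofList L := by rw [← h]; trivial
    exact one_notMem (fun s hs => Or.inl (hL s hs)) h1
  · intro i _
    obtain ⟨m, ⟨φ⟩⟩ := quot_list (L.take i) (htake i)
    have hreg : IsRegularRing (MvPolynomial (Fin N) K ⧸ Ideal.ofList (L.take i)) :=
      IsRegularRing.of_ringEquiv φ.symm
    exact ⟨inferInstance, fun p _ _ => inferInstance⟩

/-- The variables form an admissible system for any forms. -/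
lemma isAdmissible_X (η d : ℕ) (hd : 1 ≤ d) {n : ℕ} (F : Fin n → MvPolynomial (Fin N) K) :
    IsAdmissible η d F (fun j : Fin N => X j) (fun _ => 1) := by
  have hL : ∀ l ∈ List.ofFn (fun j : Fin N => (X j : MvPolynomial (Fin N) K)),
      l.IsHomogeneous 1 := by
    intro l hl
    rw [List.mem_ofFn] at hl
    obtain ⟨j, rfl⟩ := hl
    exact isHomogeneous_X _ _
  refine ⟨fun j => isHomogeneous_X _ _, fun _ => hd, ?_, ?_, ?_⟩
  · refine (isREtaSeq_linear η _ hL ?_).1
    have h6 : (List.ofFn (fun j : Fin N => (X j : MvPolynomial (Fin N) K))).get =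
        (fun j : Fin N => (X j : MvPolynomial (Fin N) K)) ∘
          (finCongr (List.length_ofFn (f := fun j : Fin N => (X j : MvPolynomial (Fin N) K)))) := by
      funext i
      rw [List.get_eq_getElem, List.getElem_ofFn]
      rfl
    rw [h6]
    exact (linearIndependent_equiv _).mpr (linearIndependent_X _ _)
  · intro i
    rw [MvPolynomial.adjoin_range_X]
    trivial
  · intro L hli hL'
    refine isREtaSeq_linear η L ?_ hli
    intro l hl
    obtain ⟨δ, hδ⟩ := hL' l hl
    have h1 : Submodule.span K {g | ∃ j : Fin N, 1 = δ ∧ (X j : MvPolynomial (Fin N) K) = g} ≤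
        homogeneousSubmodule (Fin N) K 1 := by
      rw [Submodule.span_le]
      rintro g ⟨j, -, rfl⟩
      exact isHomogeneous_X _ _
    exact h1 hδ

end quot

section final

universe u

lemma IsAdmissible.allRegular {η d : ℕ} {K : Type*} [Field K] {N n t : ℕ}
    {F : Fin n → MvPolynomial (Fin N) K} {G : Fin t → MvPolynomial (Fin N) K}
    {e : Fin t → ℕ} (h : IsAdmissible η d F G e) : AllRegular G e :=
  fun L hL hL' => (h.rEta L hL hL').1

lemma lower' (K : Type*) [Field K] (n : ℕ) (hn : 2 ≤ n) (η d t : ℕ)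
    (G : Fin t → MvPolynomial (Fin (3 * 2 ^ (n - 2))) K) (e : Fin t → ℕ)
    (h : IsAdmissible η d (fun i : Fin n => fam K (3 * 2 ^ (n - 2)) i) G e) :
    3 * 2 ^ (n - 2) ≤ t :=
  lower K (n - 2) _ rfl t G e h.homog (fun k hk => h.mem_adjoin ⟨k, by omega⟩) h.allRegular

lemma bounds_le (η n d s : ℕ) (hn : 2 ≤ n) (hd : 2 ≤ d) (h : Bounds.{u} η n d s) :
    3 * 2 ^ (n - 2) ≤ s := by
  obtain ⟨t, G, e, hts, hadm⟩ := h (AlgebraicClosure (ULift.{u} ℚ)) (3 * 2 ^ (n - 2))
    (fun i : Fin n => fam _ (3 * 2 ^ (n - 2)) i)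
    (fun i => ⟨2, by norm_num, hd, fam_homog _ _ _⟩)
  exact (lower' _ n hn η d t G e hadm).trans hts

lemma exp_beats_poly (C e : ℝ) (hC : 0 < C) :
    ∃ n : ℕ, 2 ≤ n ∧ C * (n : ℝ) ^ e < 3 * 2 ^ (n - 2) := by
  have h := isLittleO_pow_const_const_pow_of_one_lt (R := ℝ) ⌈e⌉₊ (r := 2) (by norm_num)
  have hc : 0 < 3 / (8 * C) := by positivity
  have h1 := (h.def hc).and (Filter.eventually_ge_atTop 2)
  obtain ⟨n, h2, hn⟩ := h1.exists
  refine ⟨n, hn, ?_⟩
  have hn1 : (1 : ℝ) ≤ n := by exact_mod_cast (by omega : 1 ≤ n)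
  have h3 : (n : ℝ) ^ e ≤ (n : ℝ) ^ ⌈e⌉₊ := by
    rw [← Real.rpow_natCast]
    exact Real.rpow_le_rpow_of_exponent_le hn1 (Nat.le_ceil e)
  rw [Real.norm_of_nonneg (by positivity), Real.norm_of_nonneg (by positivity)] at h2
  have h4 : (2 : ℝ) ^ n = 4 * 2 ^ (n - 2) := by
    obtain ⟨m, rfl⟩ : ∃ m, n = m + 2 := ⟨n - 2, by omega⟩
    simp [pow_add]; ring
  calc C * (n : ℝ) ^ e ≤ C * (3 / (8 * C) * 2 ^ n) := by gcongr; exact h3.trans h2
    _ = 3 / 8 * 2 ^ n := by field_simp
    _ = 3 / 2 * 2 ^ (n - 2) := by rw [h4]; ring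
    _ < 3 * 2 ^ (n - 2) := by
      have : (0 : ℝ) < 2 ^ (n - 2) := by positivity
      linarith

/-- For every `n ≥ 2` and every field `K` there are `n` quadrics for which the least number of
members of an admissible system is exactly `3 * 2 ^ (n - 2)`, for all `η` and all `d ≥ 1`; hence `etaBStar η n d ≥ 3 * 2 ^ (n - 2)` for all `d ≥ 2`,
all `n ≥ 2` and all `η`, and for no `d ≥ 2` and no `η ≥ 1` is `etaBStar η n d` bounded above by
`C * n ^ e` for constants `C, e > 0`. -/
theorem result :
    (∀ (K : Type u) [Field K] (n : ℕ), 2 ≤ n →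
      ∃ F : Fin n → MvPolynomial (Fin (3 * 2 ^ (n - 2))) K, (∀ i, (F i).IsHomogeneous 2) ∧
        ∀ η d : ℕ, 1 ≤ d →
          IsLeast {t : ℕ | ∃ (G : Fin t → MvPolynomial (Fin (3 * 2 ^ (n - 2))) K)
            (e : Fin t → ℕ), IsAdmissible η d F G e} (3 * 2 ^ (n - 2))) ∧
    (∀ η n d : ℕ, 2 ≤ n → 2 ≤ d → 3 * 2 ^ (n - 2) ≤ etaBStar.{u} η n d) ∧
    (∀ η d : ℕ, 1 ≤ η → 2 ≤ d →
      ¬ ∃ C e : ℝ, 0 < C ∧ 0 < e ∧ ∀ n : ℕ, 1 ≤ n →
        ∃ s : ℕ, Bounds.{u} η n d s ∧ (s : ℝ) ≤ C * (n : ℝ) ^ e) := by
  refine ⟨?_, ?_, ?_⟩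
  · intro K _ n hn
    refine ⟨fun i => fam K (3 * 2 ^ (n - 2)) i, fun i => fam_homog _ _ _, ?_⟩
    intro η d hd
    refine ⟨⟨_, _, isAdmissible_X η d hd _⟩, ?_⟩
    rintro t ⟨G, e, h⟩
    exact lower' K n hn η d t G e h
  · intro η n d hn hd
    refine le_sInf ?_
    rintro x ⟨s, hs, rfl⟩
    have := bounds_le.{u} η n d s hn hd hs
    exact_mod_cast this
  · rintro η d hη hd ⟨C, e, hC, he, h⟩
    obtain ⟨n, hn, hlt⟩ := exp_beats_poly C e hC
    obtain ⟨s, hs, hsle⟩ := h n (by omega)
    have h1 := bounds_le.{u} η n d s hn hd hs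
    have h2 : (3 * 2 ^ (n - 2) : ℝ) ≤ s := by exact_mod_cast h1
    linarith

end final

end Pool.Agent.Results.MP_c112f0_ag.ExpLower
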